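import Mathlib

set_option autoImplicit false

namespace Pool.Agent.Results.MP_691546_co.DisproofAllRGeSeven

open Finset

/-- `D` is a dominating set of the hypergraph with vertex set `Fin n` and edge set `E`:
every vertex `v` outside `D` lies in a hyperedge `e` with `e \ {v} ⊆ D`. -/
def Dominating {n : ℕ} (E : Finset (Finset (Fin n))) (D : Finset (Fin n)) : Prop :=
  ∀ v : Fin n, v ∉ D → ∃ e ∈ E, v ∈ e ∧ e \ {v} ⊆ D

/-- `S` is a dominated set: its complement is dominating. -/
def Dominated {n : ℕ} (E : Finset (Finset (Fin n))) (S : Finset (Fin n)) : Prop :=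
  Dominating E (univ \ S)

open Classical in
/-- The dominated number: the maximum size of a dominated set. -/
noncomputable def dominatedNumber {n : ℕ} (E : Finset (Finset (Fin n))) : ℕ :=
  ((univ : Finset (Finset (Fin n))).filter (fun S => Dominated E S)).sup card

/-- The number of copies of the complete `r`-uniform hypergraph on `t` vertices: the number of
`t`-sets of vertices all of whose `r`-subsets are hyperedges. -/
def cliqueCount {n : ℕ} (E : Finset (Finset (Fin n))) (r t : ℕ) : ℕ :=
  (((univ : Finset (Fin n)).powersetCard t).filter (fun T => T.powersetCard r ⊆ E)).card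

/-- Sanity check: the dominated number bounds the size of every dominated set. -/
lemma card_le_dominatedNumber {n : ℕ} {E : Finset (Finset (Fin n))} {S : Finset (Fin n)}
    (hS : Dominated E S) : S.card ≤ dominatedNumber E := by
  classical
  unfold dominatedNumber
  exact le_sup (f := card) (by simp [hS])

/-- Sanity check: the dominated number is attained by some dominated set. -/
lemma exists_dominated_card_eq {n : ℕ} (E : Finset (Finset (Fin n))) :
    ∃ S : Finset (Fin n), Dominated E S ∧ S.card = dominatedNumber E := by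
  classical
  have hne : ((univ : Finset (Finset (Fin n))).filter (fun S => Dominated E S)).Nonempty :=
    ⟨∅, by simp [Dominated, Dominating]⟩
  obtain ⟨S, hS, hcard⟩ := exists_mem_eq_sup _ hne card
  refine ⟨S, ?_, ?_⟩
  · simpa using hS
  · unfold dominatedNumber
    exact hcard.symm

/-- The hypergraph used: all `r`-sets whose complement meets all three colour classes. -/
def edges {n : ℕ} (c : Fin n → Fin 3) (r : ℕ) : Finset (Finset (Fin n)) :=
  ((univ : Finset (Fin n)).powersetCard r).filter (fun e => ∀ i : Fin 3, ∃ v, v ∉ e ∧ c v = i)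

lemma mem_edges {n : ℕ} {c : Fin n → Fin 3} {r : ℕ} {e : Finset (Fin n)} :
    e ∈ edges c r ↔ e.card = r ∧ ∀ i : Fin 3, ∃ v, v ∉ e ∧ c v = i := by
  simp [edges, mem_powersetCard]

/-- Every dominated set has at most four elements when `n = r + 4`. -/
lemma dominated_card_le {r : ℕ} (c : Fin (r + 4) → Fin 3) (S : Finset (Fin (r + 4)))
    (hS : Dominated (edges c r) S) : S.card ≤ 4 := by
  by_contra hcon
  push Not at hcon
  have key : ∀ v ∈ S, ∀ i : Fin 3, ∃ w ∈ S, w ≠ v ∧ c w = i := by
    intro v hv i
    obtain ⟨e, he, hve, hsub⟩ := hS v (by simp [hv])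
    rw [mem_edges] at he
    obtain ⟨hcard, hcol⟩ := he
    -- the complement of `e` equals `S \ {v}`
    have h1 : S.erase v ⊆ univ \ e := by
      intro w hw
      rw [mem_erase] at hw
      simp only [mem_sdiff, mem_univ, true_and]
      intro hwe
      have : w ∈ univ \ S := hsub (by simp [hwe, hw.1])
      simp at this
      exact this hw.2
    have h2 : (univ \ e : Finset (Fin (r + 4))).card = 4 := by
      rw [card_univ_sdiff, Fintype.card_fin, hcard]
      omega
    have h3 : (S.erase v).card = S.card - 1 := card_erase_of_mem hv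
    have h4 : S.erase v = univ \ e := by
      apply eq_of_subset_of_card_le h1
      omega
    obtain ⟨w, hwe, hwc⟩ := hcol i
    have : w ∈ S.erase v := by
      rw [h4]; simp [hwe]
    rw [mem_erase] at this
    exact ⟨w, this.2, this.1, hwc⟩
  -- each colour class meets S in at least two vertices
  have hne : S.Nonempty := by
    rw [← card_pos]; omega
  have two : ∀ i : Fin 3, 2 ≤ (S.filter (fun w => c w = i)).card := by
    intro i
    obtain ⟨v0, hv0⟩ := hne
    obtain ⟨w1, hw1, _, hc1⟩ := key v0 hv0 i
    obtain ⟨w2, hw2, hne2, hc2⟩ := key w1 hw1 i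
    have : ({w1, w2} : Finset (Fin (r + 4))) ⊆ S.filter (fun w => c w = i) := by
      intro x hx
      simp only [mem_insert, mem_singleton] at hx
      rcases hx with rfl | rfl
      · simp [hw1, hc1]
      · simp [hw2, hc2]
    calc 2 = ({w1, w2} : Finset (Fin (r + 4))).card := by
            rw [card_pair (Ne.symm hne2)]
      _ ≤ _ := card_le_card this
  have hsum : S.card = ∑ i : Fin 3, (S.filter (fun w => c w = i)).card := by
    rw [card_eq_sum_card_fiberwise (f := c) (t := univ) (by intro x _; simp)]
  -- so |S| ≥ 6, but |S| ≤ 5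
  have h6 : 6 ≤ S.card := by
    rw [hsum, Fin.sum_univ_three]
    have := two 0
    have := two 1
    have := two 2
    omega
  -- |S| - 1 ≤ 4
  obtain ⟨v, hv⟩ := hne
  obtain ⟨e, he, hve, hsub⟩ := hS v (by simp [hv])
  rw [mem_edges] at he
  have h1 : S.erase v ⊆ univ \ e := by
    intro w hw
    rw [mem_erase] at hw
    simp only [mem_sdiff, mem_univ, true_and]
    intro hwe
    have : w ∈ univ \ S := hsub (by simp [hwe, hw.1])
    simp at this
    exact this hw.2
  have h2 : (univ \ e : Finset (Fin (r + 4))).card = 4 := by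
    rw [card_univ_sdiff, Fintype.card_fin, he.1]
    omega
  have h3 : (S.erase v).card = S.card - 1 := card_erase_of_mem hv
  have := card_le_card h1
  omega

lemma dominatedNumber_le {r : ℕ} (c : Fin (r + 4) → Fin 3) :
    dominatedNumber (edges c r) ≤ 4 := by
  classical
  unfold dominatedNumber
  apply Finset.sup_le
  intro S hS
  simp only [mem_filter, mem_univ, true_and] at hS
  exact dominated_card_le c S hS

/-- The number of `(r+1)`-cliques is at least the product of the sizes of the classes. -/
lemma cliqueCount_ge {r : ℕ} (hr : 1 ≤ r) (c : Fin (r + 4) → Fin 3) :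
    (univ.filter (fun v => c v = 0)).card * ((univ.filter (fun v => c v = 1)).card *
      (univ.filter (fun v => c v = 2)).card) ≤ cliqueCount (edges c r) r (r + 1) := by
  classical
  rw [← card_product, ← card_product]
  unfold cliqueCount
  apply card_le_card_of_injOn
    (fun p : Fin (r + 4) × (Fin (r + 4) × Fin (r + 4)) => univ \ {p.1, p.2.1, p.2.2})
  · rintro ⟨x, y, z⟩ hp
    simp only [coe_product, coe_filter, mem_univ, true_and, Set.mem_prod, Set.mem_ofPred_eq] at hp
    obtain ⟨hx, hy, hz⟩ := hp
    have hxy : x ≠ y := by rintro rfl; rw [hx] at hy; exact absurd hy (by decide)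
    have hxz : x ≠ z := by rintro rfl; rw [hx] at hz; exact absurd hz (by decide)
    have hyz : y ≠ z := by rintro rfl; rw [hy] at hz; exact absurd hz (by decide)
    simp only [coe_filter, Set.mem_ofPred_eq]
    refine ⟨?_, ?_⟩
    · rw [mem_powersetCard]
      refine ⟨subset_univ _, ?_⟩
      rw [card_univ_sdiff, Fintype.card_fin]
      have : ({x, y, z} : Finset (Fin (r + 4))).card = 3 := by
        rw [card_eq_three]; exact ⟨x, y, z, hxy, hxz, hyz, rfl⟩
      omega
    · intro e he
      rw [mem_powersetCard] at he
      rw [mem_edges]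
      refine ⟨he.2, ?_⟩
      intro i
      have hx' : x ∉ e := fun h => by simpa using he.1 h
      have hy' : y ∉ e := fun h => by simpa using he.1 h
      have hz' : z ∉ e := fun h => by simpa using he.1 h
      fin_cases i
      · exact ⟨x, hx', hx⟩
      · exact ⟨y, hy', hy⟩
      · exact ⟨z, hz', hz⟩
  · rintro ⟨x, y, z⟩ hp ⟨x', y', z'⟩ hp' heq
    simp only [coe_product, coe_filter, mem_univ, true_and, Set.mem_prod,
      Set.mem_ofPred_eq] at hp hp'
    obtain ⟨hx, hy, hz⟩ := hp
    obtain ⟨hx', hy', hz'⟩ := hp'
    have h : ({x, y, z} : Finset (Fin (r + 4))) = {x', y', z'} := by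
      have := congrArg (fun s => univ \ s) heq
      simpa using this
    have ex : x = x' := by
      have : x ∈ ({x', y', z'} : Finset (Fin (r + 4))) := by rw [← h]; simp
      simp only [mem_insert, mem_singleton] at this
      rcases this with h1 | h1 | h1
      · exact h1
      · rw [h1, hy'] at hx; exact absurd hx (by decide)
      · rw [h1, hz'] at hx; exact absurd hx (by decide)
    have ey : y = y' := by
      have : y ∈ ({x', y', z'} : Finset (Fin (r + 4))) := by rw [← h]; simp
      simp only [mem_insert, mem_singleton] at this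
      rcases this with h1 | h1 | h1
      · rw [h1, hx'] at hy; exact absurd hy (by decide)
      · exact h1
      · rw [h1, hz'] at hy; exact absurd hy (by decide)
    have ez : z = z' := by
      have : z ∈ ({x', y', z'} : Finset (Fin (r + 4))) := by rw [← h]; simp
      simp only [mem_insert, mem_singleton] at this
      rcases this with h1 | h1 | h1
      · rw [h1, hx'] at hz; exact absurd hz (by decide)
      · rw [h1, hy'] at hz; exact absurd hz (by decide)
      · exact h1
    rw [ex, ey, ez]

/-- If every class has at least two vertices, there is no isolated vertex. -/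
lemma no_isolated {r : ℕ} (c : Fin (r + 4) → Fin 3) (hr : 1 ≤ r)
    (h2 : ∀ i : Fin 3, 2 ≤ (univ.filter (fun v => c v = i)).card) (v : Fin (r + 4)) :
    ∃ e ∈ edges c r, v ∈ e := by
  classical
  -- choose a vertex different from v in each class
  have hw : ∀ i : Fin 3, ∃ w, w ≠ v ∧ c w = i := by
    intro i
    by_contra hcon
    push Not at hcon
    have : (univ.filter (fun v => c v = i)) ⊆ {v} := by
      intro w hw
      simp only [mem_filter, mem_univ, true_and] at hw
      by_contra hne
      simp only [mem_singleton] at hne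
      exact hcon w hne hw
    have := card_le_card this
    have := h2 i
    simp at *
    omega
  choose w hwv hwc using hw
  let A : Finset (Fin (r + 4)) := univ \ {w 0, w 1, w 2}
  have hAcard : r + 1 ≤ A.card := by
    have : ({w 0, w 1, w 2} : Finset (Fin (r + 4))).card ≤ 3 := card_le_three
    have : A.card = (r + 4) - ({w 0, w 1, w 2} : Finset (Fin (r + 4))).card := by
      simp only [A]
      rw [card_univ_sdiff, Fintype.card_fin]
    omega
  have hvA : v ∈ A := by
    simp only [A, mem_sdiff, mem_univ, true_and, mem_insert, mem_singleton, not_or]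
    exact ⟨(hwv 0).symm, (hwv 1).symm, (hwv 2).symm⟩
  obtain ⟨e, hve, heA, hecard⟩ := exists_subsuperset_card_eq (s := {v}) (t := A) (n := r)
    (by simpa using hvA) (by simpa using hr) (by omega)
  refine ⟨e, ?_, hve (by simp)⟩
  rw [mem_edges]
  refine ⟨hecard, ?_⟩
  intro i
  refine ⟨w i, ?_, hwc i⟩
  intro hmem
  have := heA hmem
  simp only [A, mem_sdiff, mem_univ, true_and, mem_insert, mem_singleton, not_or] at this
  fin_cases i
  · exact this.1 rfl
  · exact this.2.1 rfl
  · exact this.2.2 rfl

/-- The colouring by intervals with class sizes `a`, `b` and `n - a - b`. -/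
def col (n a b : ℕ) (v : Fin n) : Fin 3 :=
  if v.val < a then 0 else if v.val < a + b then 1 else 2

lemma col_eq_zero {n a b : ℕ} (v : Fin n) : col n a b v = 0 ↔ v.val < a := by
  unfold col
  split_ifs with h1 h2 <;> simp [h1]

lemma col_eq_one {n a b : ℕ} (v : Fin n) : col n a b v = 1 ↔ a ≤ v.val ∧ v.val < a + b := by
  unfold col
  split_ifs with h1 h2
  · simp; omega
  · simp; omega
  · simp; omega

lemma col_eq_two {n a b : ℕ} (v : Fin n) : col n a b v = 2 ↔ a + b ≤ v.val := by
  unfold col
  split_ifs with h1 h2
  · simp; omega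
  · simp; omega
  · simp; omega

lemma card_col {n a b d : ℕ} (h : n = a + b + d) :
    (univ.filter (fun v => col n a b v = 0)).card = a ∧
    (univ.filter (fun v => col n a b v = 1)).card = b ∧
    (univ.filter (fun v => col n a b v = 2)).card = d := by
  subst h
  refine ⟨?_, ?_, ?_⟩
  · have : (univ.filter (fun v => col (a + b + d) a b v = 0)).map Fin.valEmbedding = range a := by
      ext x
      simp only [mem_map, mem_filter, mem_univ, true_and, Fin.valEmbedding_apply, mem_range,
        col_eq_zero]
      constructor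
      · rintro ⟨v, hv, rfl⟩
        exact hv
      · intro hx
        exact ⟨⟨x, by omega⟩, hx, rfl⟩
    rw [← card_map Fin.valEmbedding, this, card_range]
  · have : (univ.filter (fun v => col (a + b + d) a b v = 1)).map Fin.valEmbedding
        = Ico a (a + b) := by
      ext x
      simp only [mem_map, mem_filter, mem_univ, true_and, Fin.valEmbedding_apply, mem_Ico,
        col_eq_one]
      constructor
      · rintro ⟨v, hv, rfl⟩
        exact hv
      · intro hx
        exact ⟨⟨x, by omega⟩, hx, rfl⟩
    rw [← card_map Fin.valEmbedding, this, Nat.card_Ico]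
    omega
  · have : (univ.filter (fun v => col (a + b + d) a b v = 2)).map Fin.valEmbedding
        = Ico (a + b) (a + b + d) := by
      ext x
      simp only [mem_map, mem_filter, mem_univ, true_and, Fin.valEmbedding_apply, mem_Ico,
        col_eq_two]
      constructor
      · rintro ⟨v, hv, rfl⟩
        exact ⟨hv, v.isLt⟩
      · intro hx
        exact ⟨⟨x, by omega⟩, hx.1, rfl⟩
    rw [← card_map Fin.valEmbedding, this, Nat.card_Ico]
    omega

lemma product_gt {r a b d : ℕ} (h : r + 4 = a + b + d) (hr : 7 ≤ r)
    (hab : a ≤ b) (hbd : b ≤ d) (had : d ≤ a + 1) :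
    (4 + r - 1).choose (r + 1) < a * (b * d) := by
  have e1 : (4 + r - 1).choose (r + 1) = (r + 3).choose 2 := by
    have : 4 + r - 1 = r + 3 := by omega
    rw [this]
    exact (Nat.choose_symm_of_eq_add (by omega))
  rw [e1, Nat.choose_two_right]
  have e2 : (r + 3) * (r + 3 - 1) / 2 < a * (b * d) ↔ (r + 3) * (r + 2) < 2 * (a * (b * d)) := by
    have : r + 3 - 1 = r + 2 := by omega
    rw [this]
    have heven : 2 ∣ (r + 3) * (r + 2) := by
      have := Nat.even_mul_succ_self (r + 2)
      rw [mul_comm]
      exact this.two_dvd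
    obtain ⟨k, hk⟩ := heven
    rw [hk]
    omega
  rw [e2]
  have ha : 3 ≤ a := by omega
  have hcases : (b = a ∧ d = a) ∨ (b = a ∧ d = a + 1) ∨ (b = a + 1 ∧ d = a + 1) := by omega
  rcases hcases with ⟨hb, hd⟩ | ⟨hb, hd⟩ | ⟨hb, hd⟩
  · have h4 : 4 ≤ a := by omega
    obtain ⟨q, hq⟩ := Nat.exists_eq_add_of_le h4
    have hr' : r = 3 * q + 8 := by omega
    subst hb hd hr' hq
    have : 2 * ((4 + q) * ((4 + q) * (4 + q)))
        = (3 * q + 8 + 3) * (3 * q + 8 + 2) + (2 * q ^ 3 + 15 * q ^ 2 + 33 * q + 18) := by ring
    rw [this]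
    omega
  · have h4 : 4 ≤ a := by omega
    obtain ⟨q, hq⟩ := Nat.exists_eq_add_of_le h4
    have hr' : r = 3 * q + 9 := by omega
    subst hb hd hr' hq
    have : 2 * ((4 + q) * ((4 + q) * (4 + q + 1)))
        = (3 * q + 9 + 3) * (3 * q + 9 + 2) + (2 * q ^ 3 + 17 * q ^ 2 + 43 * q + 28) := by ring
    rw [this]
    omega
  · obtain ⟨q, hq⟩ := Nat.exists_eq_add_of_le ha
    have hr' : r = 3 * q + 7 := by omega
    subst hb hd hr' hq
    have : 2 * ((3 + q) * ((3 + q + 1) * (3 + q + 1)))
        = (3 * q + 7 + 3) * (3 * q + 7 + 2) + (2 * q ^ 3 + 13 * q ^ 2 + 23 * q + 6) := by ring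
    rw [this]
    omega

/-- For every `r ≥ 7`, with `s = 4` and `t = r + 1`, there is an `r`-uniform hypergraph with no
isolated vertices and dominated number at most `s` that has more than `(s+r-1).choose t` copies of
the complete `r`-uniform hypergraph on `t` vertices. -/
theorem result : ∀ r : ℕ, 7 ≤ r → ∃ (n : ℕ) (E : Finset (Finset (Fin n))),
      (∀ e ∈ E, e.card = r) ∧
      (∀ v : Fin n, ∃ e ∈ E, v ∈ e) ∧
      dominatedNumber E ≤ 4 ∧
      (4 + r - 1).choose (r + 1) < cliqueCount E r (r + 1) := by
  intro r hr
  -- balanced class sizes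
  obtain ⟨a, b, d, h, hab, hbd, hda⟩ :
      ∃ a b d : ℕ, r + 4 = a + b + d ∧ a ≤ b ∧ b ≤ d ∧ d ≤ a + 1 :=
    ⟨(r + 4) / 3, (r + 5) / 3, (r + 6) / 3, by omega, by omega, by omega, by omega⟩
  obtain ⟨c0, c1, c2⟩ := card_col h
  refine ⟨r + 4, edges (col (r + 4) a b) r, ?_, ?_, ?_, ?_⟩
  · intro e he
    exact (mem_edges.mp he).1
  · apply no_isolated _ (by omega)
    intro i
    fin_cases i
    · change 2 ≤ (univ.filter (fun v => col (r + 4) a b v = 0)).card
      rw [c0]; omega
    · change 2 ≤ (univ.filter (fun v => col (r + 4) a b v = 1)).card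
      rw [c1]; omega
    · change 2 ≤ (univ.filter (fun v => col (r + 4) a b v = 2)).card
      rw [c2]; omega
  · exact dominatedNumber_le _
  · refine lt_of_lt_of_le (product_gt h hr hab hbd hda) ?_
    have := cliqueCount_ge (by omega) (col (r + 4) a b)
    rwa [c0, c1, c2] at this

end Pool.Agent.Results.MP_691546_co.DisproofAllRGeSeven
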